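import Pool.Agent.N206.CG.Af

/-!
Project CG, leaf F5 and F6 (helper704): the integral affine group is perfect, finitely generated and
infinite; properties of the reductions modulo primes.
-/

namespace Pool.Agent.N704.CG

open Pool.Agent.N206.CG Pool.Agent.N206.CG.Af
open scoped commutatorElement

/-- the vector `e_i - e_j` in row `k` -/
def vc (k : Fin 2) (i j : Fin 5) : EE ℤ :=
  ⟨fun k' l => if k' = k then (if l = i then 1 else 0) - (if l = j then 1 else 0) else 0, by
    intro k'
    by_cases h : k' = k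
    · simp [h]
    · simp [h]⟩

theorem vc_apply (k : Fin 2) (i j : Fin 5) (k' : Fin 2) (l : Fin 5) :
    (vc k i j).1 k' l =
      if k' = k then (if l = i then 1 else 0) - (if l = j then 1 else 0) else 0 := rfl

theorem pa_vc (c : Equiv.Perm (Fin 5)) (k : Fin 2) (i j : Fin 5) :
    pa c (vc k i j) = vc k (c i) (c j) := by
  apply Subtype.ext; funext k' l
  rw [pa_apply, vc_apply, vc_apply]
  have h1 : ∀ i, (c⁻¹ l = i) ↔ (l = c i) := by
    intro i
    exact Equiv.Perm.inv_eq_iff_eq
  simp only [h1]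

theorem vc_self (k : Fin 2) (i : Fin 5) : vc k i i = 0 := by
  apply Subtype.ext; funext k' l
  rw [vc_apply]
  simp

theorem vc_sub (k : Fin 2) (i j m : Fin 5) : vc k i m - vc k j m = vc k i j := by
  apply Subtype.ext; funext k' l
  change (vc k i m).1 k' l - (vc k j m).1 k' l = (vc k i j).1 k' l
  rw [vc_apply, vc_apply, vc_apply]
  by_cases h : k' = k
  · simp only [h, if_true]; ring
  · simp [h]

theorem coe_sum {ι : Type} (s : Finset ι) (f : ι → EE ℤ) (k : Fin 2) (l : Fin 5) :
    (∑ i ∈ s, f i : EE ℤ).1 k l = ∑ i ∈ s, (f i).1 k l := by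
  classical
  induction s using Finset.induction_on with
  | empty => simp
  | insert a s ha ih =>
    rw [Finset.sum_insert ha, Finset.sum_insert ha, ← ih]
    rfl

theorem vec_eq (t : EE ℤ) : t = ∑ k : Fin 2, ∑ i : Fin 5, t.1 k i • vc k i 4 := by
  apply Subtype.ext; funext k' l
  rw [coe_sum]
  have h : ∀ k : Fin 2, ((∑ i : Fin 5, t.1 k i • vc k i 4 : EE ℤ).1 k' l) =
      if k' = k then t.1 k l else 0 := by
    intro k
    rw [coe_sum]
    have h2 : ∀ i : Fin 5, (t.1 k i • vc k i 4 : EE ℤ).1 k' l = t.1 k i * (vc k i 4).1 k' l := by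
      intro i
      have : (t.1 k i • vc k i 4 : EE ℤ).1 = t.1 k i • (vc k i 4).1 := rfl
      rw [this]
      simp
    simp only [h2, vc_apply]
    by_cases hk : k' = k
    · simp only [hk, if_true, mul_sub, Finset.sum_sub_distrib, ← Finset.sum_mul, t.2 k]
      simp
    · simp [hk]
  simp only [h]
  simp

/-- a subgroup containing all translations by basic vectors contains all translations -/
theorem trans_mem (H : Subgroup (Aff ℤ)) (h : ∀ k i, (⟨1, vc k i 4⟩ : Aff ℤ) ∈ H) (t : EE ℤ) :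
    (⟨1, t⟩ : Aff ℤ) ∈ H := by
  let K : AddSubgroup (EE ℤ) :=
    { carrier := {t | (⟨1, t⟩ : Aff ℤ) ∈ H}
      zero_mem' := H.one_mem
      add_mem' := by
        intro a b ha hb
        have e : (⟨1, a + b⟩ : Aff ℤ) = ⟨1, a⟩ * ⟨1, b⟩ := by
          apply Aff.ext
          · exact (one_mul (1 : A5)).symm
          · rfl
        change (⟨1, a + b⟩ : Aff ℤ) ∈ H
        rw [e]
        exact H.mul_mem ha hb
      neg_mem' := by
        intro a ha
        have e : (⟨1, -a⟩ : Aff ℤ) = (⟨1, a⟩ : Aff ℤ)⁻¹ := by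
          apply Aff.ext
          · exact (inv_one (G := A5)).symm
          · rw [inv_t]; simp only [inv_one]; rfl
        change (⟨1, -a⟩ : Aff ℤ) ∈ H
        rw [e]
        exact H.inv_mem ha }
  have hK : t ∈ K := by
    rw [vec_eq t]
    exact K.sum_mem fun k _ => K.sum_mem fun i _ => K.zsmul_mem (h k i) _
  exact hK

/-- the linear part -/
def lin : A5 →* Aff ℤ where
  toFun a := ⟨a, 0⟩
  map_one' := rfl
  map_mul' a b := by
    apply Aff.ext
    · rfl
    · change (0 : EE ℤ) = 0 + pa a 0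
      rw [pa_zero, add_zero]

theorem aff_eq (g : Aff ℤ) : g = ⟨1, g.t⟩ * lin g.a := by
  apply Aff.ext
  · exact (one_mul g.a).symm
  · change g.t = g.t + pa _ 0
    rw [pa_zero, add_zero]

theorem exists_cm : ∀ i j : Fin 5, i ≠ j → ∃ l m' m : Fin 5, l ≠ m' ∧ m ≠ l ∧ m ≠ m' ∧ m ≠ i ∧
    m ≠ j ∧ l ≠ i ∧ l ≠ j ∧ m' ≠ i ∧ m' ≠ j := by decide

theorem t_F5 : S_F5 := by
  refine ⟨?_, ?_, ?_⟩
  · rw [eq_top_iff]
    intro g _
    rw [aff_eq g]
    refine Subgroup.mul_mem _ (trans_mem _ ?_ g.t) ?_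
    · intro k i
      by_cases h4 : i = 4
      · subst h4
        rw [vc_self]
        exact Subgroup.one_mem _
      · obtain ⟨l, m', m, h1, h2, h3, h5, h6, h7, h8, h9, h10⟩ := exists_cm i 4 h4
        let c : A5 := ⟨Equiv.swap i 4 * Equiv.swap l m', by
          rw [Equiv.Perm.mem_alternatingGroup, map_mul, Equiv.Perm.sign_swap h4,
            Equiv.Perm.sign_swap h1]
          rfl⟩
        have hc1 : (c : Equiv.Perm (Fin 5)) i = 4 := by
          change (Equiv.swap i 4 * Equiv.swap l m') i = 4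
          rw [Equiv.Perm.mul_apply, Equiv.swap_apply_of_ne_of_ne (Ne.symm h7) (Ne.symm h9),
            Equiv.swap_apply_left]
        have hc2 : (c : Equiv.Perm (Fin 5)) m = m := by
          change (Equiv.swap i 4 * Equiv.swap l m') m = m
          rw [Equiv.Perm.mul_apply, Equiv.swap_apply_of_ne_of_ne h2 h3,
            Equiv.swap_apply_of_ne_of_ne h5 h6]
        have key : (⟨1, vc k i 4⟩ : Aff ℤ) = ⁅(⟨1, vc k i m⟩ : Aff ℤ), lin c⁆ := by
          rw [commutatorElement_def]
          apply Aff.ext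
          · change (1 : A5) = 1 * c * 1⁻¹ * c⁻¹
            simp
          · rw [mul_t, mul_t, mul_t, mul_a, mul_a, inv_t, inv_t, inv_a]
            change vc k i 4 = vc k i m + pa (1 : Equiv.Perm (Fin 5)) 0 +
              pa ((1 * c : A5) : Equiv.Perm (Fin 5)) (-pa ((1⁻¹ : A5) : Equiv.Perm (Fin 5)) (vc k i m)) +
              pa _ (-pa _ 0)
            rw [pa_zero, pa_zero, neg_zero, pa_zero, add_zero, add_zero, inv_one, one_mul, pa_neg]
            change vc k i 4 = vc k i m + -pa (c : Equiv.Perm (Fin 5)) (vc k i m)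
            rw [pa_vc, hc1, hc2, ← sub_eq_add_neg, vc_sub]
        rw [key, commutator_def]
        exact Subgroup.commutator_mem_commutator (Subgroup.mem_top _) (Subgroup.mem_top _)
    · have h1 : g.a ∈ commutator A5 := by
        have h2 : commutator A5 = ⊤ :=
          commutator_alternatingGroup_eq_top (by simp)
        rw [h2]; exact Subgroup.mem_top _
      have h3 : (commutator A5).map lin ≤ commutator (Aff ℤ) := by
        rw [commutator_def, commutator_def, Subgroup.map_commutator]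
        exact Subgroup.commutator_mono le_top le_top
      exact h3 (Subgroup.mem_map_of_mem lin h1)
  · rw [Group.fg_iff]
    refine ⟨Set.range lin ∪ Set.range (fun x : Fin 2 × Fin 5 => (⟨1, vc x.1 x.2 4⟩ : Aff ℤ)), ?_, ?_⟩
    · rw [eq_top_iff]
      intro g _
      rw [aff_eq g]
      refine Subgroup.mul_mem _ (trans_mem _ ?_ g.t) ?_
      · intro k i
        exact Subgroup.subset_closure (Or.inr ⟨(k, i), rfl⟩)
      · exact Subgroup.subset_closure (Or.inl ⟨g.a, rfl⟩)
    · exact (Set.finite_range _).union (Set.finite_range _)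
  · refine Infinite.of_injective (fun n : ℤ => (⟨1, n • vc 0 0 4⟩ : Aff ℤ)) ?_
    intro a b h
    have h1 := congrArg (fun g : Aff ℤ => g.t.1 0 0) h
    have h2 : ∀ n : ℤ, (n • vc 0 0 4 : EE ℤ).1 0 0 = n := by
      intro n
      have : (n • vc 0 0 4 : EE ℤ).1 = n • (vc 0 0 4).1 := rfl
      rw [this]
      simp [vc_apply]
    simpa only [h2] using h1

/-! ### reductions -/

theorem cast_inj (p : ℕ) (hp : 1000 ≤ p) (u w : ℤ) (hu : |u| < 500) (hw : |w| < 500)
    (h : ((u : ℤ) : ZMod p) = ((w : ℤ) : ZMod p)) : u = w := by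
  rw [ZMod.intCast_eq_intCast_iff_dvd_sub] at h
  rw [abs_lt] at hu hw
  have h3 : w - u = 0 := by
    apply Int.eq_zero_of_abs_lt_dvd h
    rw [abs_lt]
    constructor <;> omega
  omega

/-- a vector with distinct entries -/
def dv (p : ℕ) : EE (ZMod p) :=
  ⟨fun _ i => (((![1, 2, 3, 4, -10] : Fin 5 → ℤ) i : ℤ) : ZMod p), by
    intro k
    rw [← Int.cast_sum]
    have : ∑ i, (![1, 2, 3, 4, -10] : Fin 5 → ℤ) i = 0 := by decide
    rw [this, Int.cast_zero]⟩

theorem act_inj (p : ℕ) (hp : 1000 ≤ p) (g : Aff (ZMod p)) (h : act g = 1) : g = 1 := by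
  have h0 : g.t = (0 : EE (ZMod p)) := by
    have := congrArg (fun s : Equiv.Perm (EE (ZMod p)) => s 0) h
    simp only [act_apply, pa_zero, add_zero, Equiv.Perm.one_apply] at this
    exact this
  have h1 : ∀ x : EE (ZMod p), pa g.a x = x := by
    intro x
    have := congrArg (fun s : Equiv.Perm (EE (ZMod p)) => s x) h
    simp only [act_apply, h0, zero_add, Equiv.Perm.one_apply] at this
    exact this
  have h2 : (g.a : Equiv.Perm (Fin 5))⁻¹ = 1 := by
    apply Equiv.ext
    intro i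
    have h3 := congrArg (fun x : EE (ZMod p) => x.1 0 i) (h1 (dv p))
    simp only [pa_apply] at h3
    have h4 := cast_inj p hp _ _ ?_ ?_ h3
    · have h5 : Function.Injective (![1, 2, 3, 4, -10] : Fin 5 → ℤ) := by decide
      exact h5 h4
    · have : ∀ i, |(![1, 2, 3, 4, -10] : Fin 5 → ℤ) i| < 500 := by decide
      exact this _
    · have : ∀ i, |(![1, 2, 3, 4, -10] : Fin 5 → ℤ) i| < 500 := by decide
      exact this _
  apply Aff.ext
  · apply Subtype.ext
    rw [one_a]
    exact inv_eq_one.mp h2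
  · exact h0

theorem redE_surj (p : ℕ) [NeZero p] (t : EE (ZMod p)) :
    ∃ s : EE ℤ, redE (Int.castRingHom (ZMod p)) s = t := by
  let f : Fin 2 → Fin 5 → ℤ := fun k i =>
    if i = 4 then -(∑ j ∈ Finset.univ.erase 4, ((t.1 k j).val : ℤ)) else ((t.1 k i).val : ℤ)
  have hf : ∀ k, ∑ i, f k i = 0 := by
    intro k
    rw [← Finset.sum_erase_add _ _ (Finset.mem_univ (4 : Fin 5))]
    have : ∑ i ∈ Finset.univ.erase (4 : Fin 5), f k i =
        ∑ j ∈ Finset.univ.erase (4 : Fin 5), ((t.1 k j).val : ℤ) := by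
      apply Finset.sum_congr rfl
      intro i hi
      simp only [f, if_neg (Finset.ne_of_mem_erase hi)]
    rw [this]
    simp only [f, if_true]
    ring
  refine ⟨⟨f, hf⟩, ?_⟩
  apply Subtype.ext; funext k i
  change ((f k i : ℤ) : ZMod p) = t.1 k i
  by_cases h4 : i = 4
  · subst h4
    simp only [f, if_true, Int.cast_neg, Int.cast_sum, Int.cast_natCast, ZMod.natCast_zmod_val]
    have := t.2 k
    rw [← Finset.sum_erase_add _ _ (Finset.mem_univ (4 : Fin 5))] at this
    exact (eq_neg_of_add_eq_zero_right this).symm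
  · simp only [f, if_neg h4, Int.cast_natCast, ZMod.natCast_zmod_val]

theorem red_surj (p : ℕ) [NeZero p] : Function.Surjective (red (R := ℤ) (R' := ZMod p) (Int.castRingHom (ZMod p))) := by
  intro g
  obtain ⟨s, hs⟩ := redE_surj p g.t
  exact ⟨⟨g.a, s⟩, Aff.ext rfl hs⟩

theorem t_F6 : S_F6 := by
  refine ⟨?_, ?_, ?_, ?_, ?_⟩
  · intro n
    have : NeZero (pp n) := ⟨(pp_prime n).ne_zero⟩
    ext s
    constructor
    · rintro ⟨b, rfl⟩
      exact ⟨_, rfl⟩
    · rintro ⟨g, rfl⟩
      obtain ⟨b, rfl⟩ := red_surj (pp n) g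
      exact ⟨b, rfl⟩
  · intro N b hb
    have h1 : ∀ n, N ≤ n → red (Int.castRingHom (ZMod (pp n))) b = 1 := fun n hn =>
      act_inj (pp n) (pp_ge n) _ (hb n hn)
    apply Aff.ext
    · have h2 := congrArg (fun g : Aff (ZMod (pp N)) => g.a) (h1 N le_rfl)
      exact h2
    · apply Subtype.ext; funext k i
      change b.t.1 k i = 0
      have h2 := congrArg (fun g : Aff (ZMod (pp (max N (b.t.1 k i).natAbs))) => g.t.1 k i)
        (h1 (max N (b.t.1 k i).natAbs) (le_max_left _ _))
      have h3 : ((b.t.1 k i : ℤ) : ZMod (pp (max N (b.t.1 k i).natAbs))) = 0 := h2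
      rw [ZMod.intCast_zmod_eq_zero_iff_dvd] at h3
      apply Int.eq_zero_of_abs_lt_dvd h3
      have h4 := pp_le (max N (b.t.1 k i).natAbs)
      have h5 : max N (b.t.1 k i).natAbs + 10 < 2 ^ (max N (b.t.1 k i).natAbs + 10) :=
        Nat.lt_two_pow_self
      have h6 : (b.t.1 k i).natAbs ≤ max N (b.t.1 k i).natAbs := le_max_right _ _
      rw [Int.abs_eq_natAbs]
      exact_mod_cast (by omega : (b.t.1 k i).natAbs < pp (max N (b.t.1 k i).natAbs))
  · intro n b
    apply Equiv.ext
    intro x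
    apply Subtype.ext; funext k i
    change ((b.t.1 (Equiv.swap 0 1 k) i : ℤ) : ZMod (pp n)) +
      x.1 (Equiv.swap 0 1 (Equiv.swap 0 1 k)) ((b.a : Equiv.Perm (Fin 5))⁻¹ i) =
      ((b.t.1 (Equiv.swap 0 1 k) i : ℤ) : ZMod (pp n)) + x.1 k ((b.a : Equiv.Perm (Fin 5))⁻¹ i)
    have h : Equiv.swap (0 : Fin 2) 1 (Equiv.swap 0 1 k) = k := by simp
    rw [h]
  · intro n x y
    refine ⟨tr (y - x), ⟨_, rfl⟩, ?_⟩
    change (y - x) + pa ((1 : A5) : Equiv.Perm (Fin 5)) x = y
    rw [Subgroup.coe_one, pa_one, sub_add_cancel]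
  · intro n
    have : NeZero (pp n) := ⟨(pp_prime n).ne_zero⟩
    infer_instance

end Pool.Agent.N704.CG
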